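import Pool.Agent.H39FB.Win

namespace Pool.Agent.H39FB

open Real

/-- the largest number of divisors of an integer between 1 and x. -/
def maxDiv (x : ℕ) : ℕ := (Finset.Icc 1 x).sup fun p => p.divisors.card

lemma le_maxDiv {p x : ℕ} (h1 : 1 ≤ p) (h2 : p ≤ x) : p.divisors.card ≤ maxDiv x := by
  unfold maxDiv
  exact Finset.le_sup (f := fun p : ℕ => p.divisors.card) (Finset.mem_Icc.2 ⟨h1, h2⟩)

/-- the key of n: the dyadic block and the eighth of the block. -/
def key (n : ℕ) : ℕ × ℕ := (Nat.log 2 n, 8 * (n - 2 ^ Nat.log 2 n) / 2 ^ Nat.log 2 n)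

lemma key_close {n m : ℕ} (hm : 1 ≤ m) (hmn : m ≤ n) (h : key n = key m) : 8 * (n - m) ≤ m := by
  unfold key at h
  have hk : Nat.log 2 n = Nat.log 2 m := congrArg Prod.fst h
  have hj : 8 * (n - 2 ^ Nat.log 2 n) / 2 ^ Nat.log 2 n =
    8 * (m - 2 ^ Nat.log 2 m) / 2 ^ Nat.log 2 m := congrArg Prod.snd h
  rw [hk] at hj
  set K := 2 ^ Nat.log 2 m with hK
  have hK0 : 0 < K := by positivity
  have h1 : K ≤ m := Nat.pow_log_le_self 2 (by omega)
  have a1 := Nat.div_add_mod (8 * (n - K)) K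
  have a2 := Nat.div_add_mod (8 * (m - K)) K
  have a3 := Nat.mod_lt (8 * (n - K)) hK0
  rw [hj] at a1
  have : 8 * (n - K) < 8 * (m - K) + K := by omega
  omega

lemma key_mem {n X : ℕ} (hn : 1 ≤ n) (hX : n ≤ X) :
    key n ∈ (Finset.range (Nat.log 2 X + 1)) ×ˢ (Finset.range 8) := by
  unfold key
  simp only [Finset.mem_product, Finset.mem_range]
  constructor
  · have := Nat.log_mono_right (b := 2) hX
    omega
  · set K := 2 ^ Nat.log 2 n with hK
    have hK0 : 0 < K := by positivity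
    have h1 : n < 2 ^ (Nat.log 2 n + 1) := Nat.lt_pow_succ_log_self (by norm_num) n
    have h2 : 2 ^ (Nat.log 2 n + 1) = 2 * K := by rw [hK, pow_succ]; ring
    rw [Nat.div_lt_iff_lt_mul hK0]
    omega

open Classical in
/-- The main explicit bound. -/
theorem count_le (X : ℕ) (_hX : 1 ≤ X) :
    ((Finset.Icc 3 X).filter Exc).card ≤ 8 * (Nat.log 2 X + 1) * maxDiv (X ^ 2) := by
  have h := Finset.card_le_mul_card_image_of_maps_to (s := (Finset.Icc 3 X).filter Exc)
    (f := key) (t := (Finset.range (Nat.log 2 X + 1)) ×ˢ (Finset.range 8))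
    (fun n hn => by
      simp only [Finset.mem_filter, Finset.mem_Icc] at hn
      exact key_mem (by omega) hn.1.2) (maxDiv (X ^ 2)) ?_
  · refine h.trans ?_
    rw [Finset.card_product, Finset.card_range, Finset.card_range]
    apply le_of_eq; ring
  · intro k _
    set S := ((Finset.Icc 3 X).filter Exc).filter (fun n => key n = k) with hS
    by_cases hne : S.Nonempty
    · set N := S.min' hne with hN
      have hNS : N ∈ S := Finset.min'_mem _ _
      have hmem : ∀ n ∈ S, 3 ≤ n ∧ n ≤ X ∧ Exc n ∧ key n = k := by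
        intro n hn
        rw [hS] at hn
        simp only [Finset.mem_filter, Finset.mem_Icc] at hn
        exact ⟨hn.1.1.1, hn.1.1.2, hn.1.2, hn.2⟩
      have hN' := hmem N hNS
      obtain ⟨p, hp1, hp2, hp3⟩ := window S N (by omega) (fun n hn => by
        have h1 := hmem n hn
        have h2 : N ≤ n := Finset.min'_le _ _ hn
        exact ⟨h2, key_close (by omega) h2 (h1.2.2.2.trans hN'.2.2.2.symm)⟩)
        (fun n hn => exc_int (hmem n hn).1 (hmem n hn).2.2.1)
      refine hp3.trans (le_maxDiv hp1 (hp2.trans ?_))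
      exact Nat.pow_le_pow_left hN'.2.1 2
    · rw [Finset.not_nonempty_iff_eq_empty] at hne
      rw [hne]; simp

/-! divisor bound -/

private theorem tb_step {θ : ℝ} (hθ : 0 < θ) (p a : ℕ) (hp : 2 ≤ p) :
    ((a : ℝ) + 1) ≤ (1 + 1 / (θ * Real.log 2)) * ((p : ℝ) ^ a) ^ θ := by
  have hl : 0 < Real.log 2 := Real.log_pos (by norm_num)
  have hp2 : (2 : ℝ) ≤ (p : ℝ) := by exact_mod_cast hp
  have h1 : ((2 : ℝ) ^ a) ^ θ ≤ ((p : ℝ) ^ a) ^ θ := by
    apply Real.rpow_le_rpow (by positivity) _ hθ.le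
    exact pow_le_pow_left₀ (by norm_num) hp2 a
  have h2 : ((2 : ℝ) ^ a) ^ θ = Real.exp (θ * a * Real.log 2) := by
    rw [← Real.rpow_natCast, ← Real.rpow_mul (by norm_num), Real.rpow_def_of_pos (by norm_num)]
    congr 1
    ring
  have h3 : 1 + θ * a * Real.log 2 ≤ Real.exp (θ * a * Real.log 2) := by
    have := Real.add_one_le_exp (θ * a * Real.log 2)
    linarith
  have h4 : 1 + θ * a * Real.log 2 ≤ ((p : ℝ) ^ a) ^ θ := by linarith
  have h0 : 0 ≤ θ * a * Real.log 2 := by positivity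
  calc ((a : ℝ) + 1) ≤ (1 + 1 / (θ * Real.log 2)) * (1 + θ * a * Real.log 2) := by
        have e : (1 / (θ * Real.log 2)) * (θ * a * Real.log 2) = a := by
          field_simp
        have e2 : 0 ≤ 1 / (θ * Real.log 2) := by positivity
        nlinarith
    _ ≤ _ := mul_le_mul_of_nonneg_left h4 (by positivity)

private theorem tb_big {θ : ℝ} (p a : ℕ) (hp : (2 : ℝ) ≤ (p : ℝ) ^ θ) :
    ((a : ℝ) + 1) ≤ ((p : ℝ) ^ a) ^ θ := by
  have e : ((p : ℝ) ^ a) ^ θ = ((p : ℝ) ^ θ) ^ a := by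
    rw [← Real.rpow_natCast, ← Real.rpow_natCast, ← Real.rpow_mul (by positivity),
      ← Real.rpow_mul (by positivity), mul_comm]
  rw [e]
  have h1 : ((a : ℝ) + 1) ≤ (2 : ℝ) ^ a := by
    have := Nat.lt_two_pow_self (n := a)
    exact_mod_cast this
  exact h1.trans (pow_le_pow_left₀ (by norm_num) hp a)

theorem tau_bound {θ : ℝ} (hθ : 0 < θ) :
    ∃ C : ℝ, 0 < C ∧ ∀ n : ℕ, n ≠ 0 → (n.divisors.card : ℝ) ≤ C * (n : ℝ) ^ θ := by
  have hl : 0 < Real.log 2 := Real.log_pos (by norm_num)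
  set D : ℝ := 1 + 1 / (θ * Real.log 2) with hD
  have hD1 : 1 ≤ D := by
    have : 0 ≤ 1 / (θ * Real.log 2) := by positivity
    linarith
  set P : ℕ := ⌈(2 : ℝ) ^ (1 / θ)⌉₊ with hP
  refine ⟨D ^ P, by positivity, fun n hn => ?_⟩
  have h1 : (n.divisors.card : ℝ) = ∏ p ∈ n.primeFactors, ((n.factorization p : ℝ) + 1) := by
    rw [Nat.card_divisors hn]
    push_cast
    rfl
  have h2 : (n : ℝ) ^ θ = ∏ p ∈ n.primeFactors, ((p : ℝ) ^ (n.factorization p)) ^ θ := by
    have e : (n : ℝ) = ∏ p ∈ n.primeFactors, (p : ℝ) ^ (n.factorization p) := by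
      conv_lhs => rw [← Nat.prod_factorization_pow_eq_self hn]
      rw [Finsupp.prod, Nat.support_factorization]
      push_cast
      rfl
    conv_lhs => rw [e]
    rw [Real.finsetProd_rpow]
    intro i _
    positivity
  have h3 : ∏ p ∈ n.primeFactors, ((n.factorization p : ℝ) + 1) ≤
      ∏ p ∈ n.primeFactors, ((if p < P then D else 1) * ((p : ℝ) ^ (n.factorization p)) ^ θ) := by
    apply Finset.prod_le_prod
    · intro i _; positivity
    · intro p hp
      have hp' := Nat.prime_of_mem_primeFactors hp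
      split_ifs with h
      · exact tb_step hθ p _ hp'.two_le
      · rw [one_mul]
        apply tb_big
        have h5 : (2 : ℝ) ^ (1 / θ) ≤ (p : ℝ) := (Nat.le_ceil _).trans (by
          have : P ≤ p := by omega
          exact_mod_cast this)
        calc (2 : ℝ) = ((2 : ℝ) ^ (1 / θ)) ^ θ := by
              rw [← Real.rpow_mul (by norm_num), one_div, inv_mul_cancel₀ hθ.ne', Real.rpow_one]
          _ ≤ (p : ℝ) ^ θ := Real.rpow_le_rpow (by positivity) h5 hθ.le
  have h4 : ∏ p ∈ n.primeFactors, (if p < P then D else 1) ≤ D ^ P := by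
    rw [Finset.prod_ite, Finset.prod_const, Finset.prod_const_one, mul_one]
    apply pow_le_pow_right₀ hD1
    calc (n.primeFactors.filter (fun p => p < P)).card ≤ (Finset.range P).card := by
          apply Finset.card_le_card
          intro x hx
          simp only [Finset.mem_filter] at hx
          simp [hx.2]
      _ = P := Finset.card_range P
  rw [h1]
  refine h3.trans ?_
  rw [Finset.prod_mul_distrib, ← h2]
  exact mul_le_mul_of_nonneg_right h4 (by positivity)

/-- The bound is O(X^ε). -/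
theorem bound_small {ε : ℝ} (hε : 0 < ε) :
    ∃ C : ℝ, 0 < C ∧ ∀ X : ℕ, 1 ≤ X →
      ((8 * (Nat.log 2 X + 1) * maxDiv (X ^ 2) : ℕ) : ℝ) ≤ C * (X : ℝ) ^ ε := by
  obtain ⟨C, hC, h⟩ := tau_bound (show 0 < ε / 4 by positivity)
  have hl : 0 < Real.log 2 := Real.log_pos (by norm_num)
  set D : ℝ := 1 + 1 / (ε / 2 * Real.log 2) with hD
  refine ⟨8 * D * C, by positivity, fun X hX => ?_⟩
  have hX' : (1 : ℝ) ≤ X := by exact_mod_cast hX
  have hX0 : (0 : ℝ) < X := by linarith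
  have h1 : (maxDiv (X ^ 2) : ℝ) ≤ C * (X : ℝ) ^ (ε / 2) := by
    have hne : (Finset.Icc 1 (X ^ 2)).Nonempty := ⟨1, Finset.mem_Icc.2 ⟨le_rfl, Nat.one_le_pow _ _ hX⟩⟩
    obtain ⟨p, hp, he⟩ := Finset.exists_mem_eq_sup _ hne (fun p : ℕ => p.divisors.card)
    have e1 : maxDiv (X ^ 2) = p.divisors.card := he
    rw [Finset.mem_Icc] at hp
    rw [e1]
    refine (h p (by omega)).trans ?_
    apply mul_le_mul_of_nonneg_left _ hC.le
    calc (p : ℝ) ^ (ε / 4) ≤ ((X : ℝ) ^ 2) ^ (ε / 4) := by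
          apply Real.rpow_le_rpow (by positivity) _ (by positivity)
          exact_mod_cast hp.2
      _ = (X : ℝ) ^ (ε / 2) := by
          rw [← Real.rpow_natCast, ← Real.rpow_mul hX0.le]
          congr 1
          push_cast; ring
  have h2 : ((Nat.log 2 X + 1 : ℕ) : ℝ) ≤ D * (X : ℝ) ^ (ε / 2) := by
    have h3 : ((Nat.log 2 X : ℕ) : ℝ) * Real.log 2 ≤ Real.log X := by
      have h4 : ((2 : ℝ) ^ (Nat.log 2 X)) ≤ X := by
        exact_mod_cast Nat.pow_log_le_self 2 (by omega : X ≠ 0)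
      have h5 := Real.log_le_log (by positivity) h4
      rwa [Real.log_pow] at h5
    have h6 : Real.log X ≤ (X : ℝ) ^ (ε / 2) / (ε / 2) :=
      Real.log_le_rpow_div hX0.le (by positivity)
    have h7 : ((Nat.log 2 X : ℕ) : ℝ) ≤ 1 / (ε / 2 * Real.log 2) * (X : ℝ) ^ (ε / 2) := by
      have h8 : ((Nat.log 2 X : ℕ) : ℝ) ≤ ((X : ℝ) ^ (ε / 2) / (ε / 2)) / Real.log 2 := by
        rw [le_div_iff₀ hl]; linarith
      refine h8.trans (le_of_eq ?_)
      field_simp
    have h9 : 1 ≤ (X : ℝ) ^ (ε / 2) := Real.one_le_rpow hX' (by positivity)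
    push_cast
    rw [hD, add_mul, one_mul]
    linarith
  have h10 : (X : ℝ) ^ ε = (X : ℝ) ^ (ε / 2) * (X : ℝ) ^ (ε / 2) := by
    rw [← Real.rpow_add hX0]; congr 1; ring
  have e : ((8 * (Nat.log 2 X + 1) * maxDiv (X ^ 2) : ℕ) : ℝ) =
      8 * (((Nat.log 2 X + 1 : ℕ) : ℝ) * (maxDiv (X ^ 2) : ℝ)) := by push_cast; ring
  rw [e, h10]
  have h11 : ((Nat.log 2 X + 1 : ℕ) : ℝ) * (maxDiv (X ^ 2) : ℝ) ≤
      (D * (X : ℝ) ^ (ε / 2)) * (C * (X : ℝ) ^ (ε / 2)) :=
    mul_le_mul h2 h1 (by positivity) (by positivity)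
  nlinarith

end Pool.Agent.H39FB
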