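import Pool.Agent.H39FB.Trig

namespace Pool.Agent.H39FB

open Real

/-- All differences of exceptional integers in one window are proportional. -/
lemma prop_core {a b n : ℕ} {ma mb mn : ℤ} (han : a ≤ n) (hnb : n ≤ b) (h8 : 8 * (b - a) ≤ a)
    (ha8 : 8 ≤ a)
    (da0 : 0 ≤ (a : ℝ) ^ 2 - 4 * π * ma - π ^ 2 / 3)
    (da1 : ((a : ℝ) ^ 2 - 4 * π * ma - π ^ 2 / 3) * (a : ℝ) ^ 2 ≤ 3)
    (db0 : 0 ≤ (b : ℝ) ^ 2 - 4 * π * mb - π ^ 2 / 3)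
    (db1 : ((b : ℝ) ^ 2 - 4 * π * mb - π ^ 2 / 3) * (b : ℝ) ^ 2 ≤ 3)
    (dn0 : 0 ≤ (n : ℝ) ^ 2 - 4 * π * mn - π ^ 2 / 3)
    (dn1 : ((n : ℝ) ^ 2 - 4 * π * mn - π ^ 2 / 3) * (n : ℝ) ^ 2 ≤ 3) :
    ((n : ℤ) ^ 2 - (a : ℤ) ^ 2) * (mb - ma) = ((b : ℤ) ^ 2 - (a : ℤ) ^ 2) * (mn - ma) := by
  have hpi := Real.pi_pos
  have hpi3 := Real.pi_gt_d2
  have x8 : (8 : ℝ) ≤ a := by exact_mod_cast ha8
  have h8' : 8 * ((b : ℝ) - a) ≤ a := by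
    have : 8 * b ≤ a + 8 * a := by omega
    have : 8 * (b : ℝ) ≤ a + 8 * a := by exact_mod_cast this
    linarith
  have han' : (a : ℝ) ≤ n := by exact_mod_cast han
  have hnb' : (n : ℝ) ≤ b := by exact_mod_cast hnb
  have hx2 : (0 : ℝ) < (a : ℝ) ^ 2 := by positivity
  have hx64 : (64 : ℝ) ≤ (a : ℝ) ^ 2 := by nlinarith
  -- bounds of the defects
  have key : ∀ (k : ℕ) (mk : ℤ), (a : ℝ) ≤ k → (k : ℝ) ≤ b →
      0 ≤ (k : ℝ) ^ 2 - 4 * π * mk - π ^ 2 / 3 →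
      ((k : ℝ) ^ 2 - 4 * π * mk - π ^ 2 / 3) * (k : ℝ) ^ 2 ≤ 3 →
      |((k : ℝ) ^ 2 - (a : ℝ) ^ 2) - 4 * π * (mk - ma)| ≤ 3 / (a : ℝ) ^ 2 ∧
      |(mk : ℝ) - ma| ≤ (a : ℝ) ^ 2 * (3 / 100) := by
    intro k mk hk hkb h0 h1
    have d1 : (a : ℝ) ^ 2 - 4 * π * ma - π ^ 2 / 3 ≤ 3 / (a : ℝ) ^ 2 := by
      rw [le_div_iff₀ hx2]; exact da1
    have hk2 : (a : ℝ) ^ 2 ≤ (k : ℝ) ^ 2 := pow_le_pow_left₀ (by linarith) hk 2
    have d2 : (k : ℝ) ^ 2 - 4 * π * mk - π ^ 2 / 3 ≤ 3 / (a : ℝ) ^ 2 := by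
      rw [le_div_iff₀ hx2]
      have := mul_le_mul_of_nonneg_left hk2 h0
      linarith
    have e1 : |((k : ℝ) ^ 2 - (a : ℝ) ^ 2) - 4 * π * (mk - ma)| ≤ 3 / (a : ℝ) ^ 2 := by
      rw [abs_le]; constructor <;> linarith
    refine ⟨e1, ?_⟩
    have e2 : 3 / (a : ℝ) ^ 2 ≤ 3 / 64 := by
      apply div_le_div_of_nonneg_left (by norm_num) (by norm_num) hx64
    have e3 := abs_le.1 (e1.trans e2)
    have hb : (b : ℝ) ≤ 9 / 8 * a := by linarith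
    have hk3 : (k : ℝ) ^ 2 ≤ 81 / 64 * (a : ℝ) ^ 2 := by
      have : (k : ℝ) ^ 2 ≤ (9 / 8 * a) ^ 2 := pow_le_pow_left₀ (by linarith) (hkb.trans hb) 2
      nlinarith
    have e4 : 4 * π * ((mk : ℝ) - ma) ≤ 0.3 * (a : ℝ) ^ 2 := by linarith [e3.1]
    have e5 : -(0.3 * (a : ℝ) ^ 2) ≤ 4 * π * ((mk : ℝ) - ma) := by linarith [e3.2]
    rw [abs_le]
    constructor
    · by_contra hcon
      push Not at hcon
      have : 4 * π * ((mk : ℝ) - ma) < 4 * π * (-((a : ℝ) ^ 2 * (3 / 100))) :=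
        mul_lt_mul_of_pos_left hcon (by positivity)
      nlinarith
    · by_contra hcon
      push Not at hcon
      have : 4 * π * ((a : ℝ) ^ 2 * (3 / 100)) < 4 * π * ((mk : ℝ) - ma) :=
        mul_lt_mul_of_pos_left hcon (by positivity)
      nlinarith
  have kb := key b mb (han'.trans hnb') le_rfl db0 db1
  have kn := key n mn han' hnb' dn0 dn1
  set z : ℤ := ((n : ℤ) ^ 2 - (a : ℤ) ^ 2) * (mb - ma) - ((b : ℤ) ^ 2 - (a : ℤ) ^ 2) * (mn - ma)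
    with hz
  have hz0 : z = 0 := by
    rw [← Int.abs_lt_one_iff]
    have : |(z : ℝ)| < 1 := by
      have e : (z : ℝ) = (((n : ℝ) ^ 2 - (a : ℝ) ^ 2) - 4 * π * (mn - ma)) * (mb - ma) -
          (((b : ℝ) ^ 2 - (a : ℝ) ^ 2) - 4 * π * (mb - ma)) * (mn - ma) := by
        rw [hz]; push_cast; ring
      rw [e]
      have t1 : |(((n : ℝ) ^ 2 - (a : ℝ) ^ 2) - 4 * π * (mn - ma)) * (mb - ma)| ≤ 9 / 100 := by
        rw [abs_mul]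
        calc _ ≤ 3 / (a : ℝ) ^ 2 * ((a : ℝ) ^ 2 * (3 / 100)) :=
              mul_le_mul kn.1 kb.2 (abs_nonneg _) (by positivity)
          _ = 9 / 100 := by field_simp; norm_num
      have t2 : |(((b : ℝ) ^ 2 - (a : ℝ) ^ 2) - 4 * π * (mb - ma)) * (mn - ma)| ≤ 9 / 100 := by
        rw [abs_mul]
        calc _ ≤ 3 / (a : ℝ) ^ 2 * ((a : ℝ) ^ 2 * (3 / 100)) :=
              mul_le_mul kb.1 kn.2 (abs_nonneg _) (by positivity)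
          _ = 9 / 100 := by field_simp; norm_num
      have := abs_sub (((((n : ℝ) ^ 2 - (a : ℝ) ^ 2) - 4 * π * (mn - ma)) * (mb - ma)))
        (((((b : ℝ) ^ 2 - (a : ℝ) ^ 2) - 4 * π * (mb - ma)) * (mn - ma)))
      linarith
    exact_mod_cast this
  linarith [hz0, hz]

end Pool.Agent.H39FB
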