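import Mathlib

namespace Pool.Agent.H39FB

open Real

/-- An integer n is exceptional if the two integer parts differ. -/
def Exc (n : ℕ) : Prop :=
  ⌊(n : ℝ) / 4 * Real.cot (π / n)⌋ ≠ ⌊(n : ℝ) ^ 2 / (4 * π) - π / 12⌋

lemma nonneg_of_deriv {f f' : ℝ → ℝ} (h0 : 0 ≤ f 0) (hd : ∀ x, HasDerivAt f (f' x) x)
    (hp : ∀ x, 0 ≤ x → 0 ≤ f' x) : ∀ x, 0 ≤ x → 0 ≤ f x := by
  intro x hx
  have hm : MonotoneOn f (Set.Ici 0) := by
    apply monotoneOn_of_deriv_nonneg (convex_Ici 0)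
    · exact fun y _ => (hd y).continuousAt.continuousWithinAt
    · exact fun y _ => (hd y).differentiableAt.differentiableWithinAt
    · intro y hy
      rw [(hd y).deriv]
      rw [interior_Ici] at hy
      exact hp y (le_of_lt hy)
  exact h0.trans (hm (Set.mem_Ici.2 le_rfl) (Set.mem_Ici.2 hx) hx)

lemma c2 : ∀ x : ℝ, 0 ≤ x → 0 ≤ cos x - (1 - x ^ 2 / 2) := by
  intro x _
  have := Real.one_sub_sq_div_two_le_cos (x := x)
  linarith

lemma s3 : ∀ x : ℝ, 0 ≤ x → 0 ≤ sin x - (x - x ^ 3 / 6) := by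
  apply nonneg_of_deriv (f' := fun x => cos x - (1 - x ^ 2 / 2)) (by simp)
  · intro x
    have h := (hasDerivAt_sin x).sub ((hasDerivAt_id x).sub ((hasDerivAt_pow 3 x).div_const 6))
    refine h.congr_deriv ?_
    simp; ring
  · exact c2

lemma c4 : ∀ x : ℝ, 0 ≤ x → 0 ≤ (1 - x ^ 2 / 2 + x ^ 4 / 24) - cos x := by
  apply nonneg_of_deriv (f' := fun x => sin x - (x - x ^ 3 / 6)) (by simp)
  · intro x
    have h := (((hasDerivAt_const x (1 : ℝ)).sub ((hasDerivAt_pow 2 x).div_const 2)).add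
      ((hasDerivAt_pow 4 x).div_const 24)).sub (hasDerivAt_cos x)
    refine h.congr_deriv ?_
    simp; ring
  · exact s3

lemma s5 : ∀ x : ℝ, 0 ≤ x → 0 ≤ (x - x ^ 3 / 6 + x ^ 5 / 120) - sin x := by
  apply nonneg_of_deriv (f' := fun x => (1 - x ^ 2 / 2 + x ^ 4 / 24) - cos x) (by simp)
  · intro x
    have h := (((hasDerivAt_id x).sub ((hasDerivAt_pow 3 x).div_const 6)).add
      ((hasDerivAt_pow 5 x).div_const 120)).sub (hasDerivAt_sin x)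
    refine h.congr_deriv ?_
    simp; ring
  · exact c4

lemma c6 : ∀ x : ℝ, 0 ≤ x → 0 ≤ cos x - (1 - x ^ 2 / 2 + x ^ 4 / 24 - x ^ 6 / 720) := by
  apply nonneg_of_deriv (f' := fun x => (x - x ^ 3 / 6 + x ^ 5 / 120) - sin x) (by simp)
  · intro x
    have h := (hasDerivAt_cos x).sub ((((hasDerivAt_const x (1 : ℝ)).sub
      ((hasDerivAt_pow 2 x).div_const 2)).add
      ((hasDerivAt_pow 4 x).div_const 24)).sub ((hasDerivAt_pow 6 x).div_const 720))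
    refine h.congr_deriv ?_
    simp; ring
  · exact s5

/-- lower bound for x cot x. -/
lemma xcot_ge {x : ℝ} (h0 : 0 < x) (h1 : x ^ 2 ≤ 11 / 10) :
    1 - x ^ 2 / 3 - 3 / 100 * x ^ 4 ≤ x * Real.cot x := by
  have hs : 0 < sin x := by
    apply sin_pos_of_pos_of_lt_pi h0
    have := Real.pi_gt_three
    nlinarith
  rw [Real.cot_eq_cos_div_sin, ← mul_div_assoc, le_div_iff₀ hs]
  have a1 := s5 x h0.le
  have a2 := c6 x h0.le
  have hf : 0 ≤ 1 - x ^ 2 / 3 - 3 / 100 * x ^ 4 := by nlinarith [sq_nonneg x]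
  have b1 : (1 - x ^ 2 / 3 - 3 / 100 * x ^ 4) * sin x ≤
      (1 - x ^ 2 / 3 - 3 / 100 * x ^ 4) * (x - x ^ 3 / 6 + x ^ 5 / 120) :=
    mul_le_mul_of_nonneg_left (by linarith) hf
  have b2 : x * (1 - x ^ 2 / 2 + x ^ 4 / 24 - x ^ 6 / 720) ≤ x * cos x :=
    mul_le_mul_of_nonneg_left (by linarith) h0.le
  have b3 : 0 ≤ x * (1 - x ^ 2 / 2 + x ^ 4 / 24 - x ^ 6 / 720) -
      (1 - x ^ 2 / 3 - 3 / 100 * x ^ 4) * (x - x ^ 3 / 6 + x ^ 5 / 120) := by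
    have e : x * (1 - x ^ 2 / 2 + x ^ 4 / 24 - x ^ 6 / 720) -
      (1 - x ^ 2 / 3 - 3 / 100 * x ^ 4) * (x - x ^ 3 / 6 + x ^ 5 / 120) =
      x ^ 5 * ((3 / 100 - 1 / 45) + (1 / 720 - 1 / 200) * x ^ 2 + 3 / 12000 * x ^ 4) := by ring
    rw [e]
    apply mul_nonneg (by positivity)
    nlinarith [sq_nonneg (x ^ 2)]
  linarith

/-- upper bound for x cot x. -/
lemma xcot_le {x : ℝ} (h0 : 0 < x) (h1 : x ^ 2 ≤ 11 / 10) :
    x * Real.cot x ≤ 1 - x ^ 2 / 3 := by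
  have hs : 0 < sin x := by
    apply sin_pos_of_pos_of_lt_pi h0
    have := Real.pi_gt_three
    nlinarith
  rw [Real.cot_eq_cos_div_sin, ← mul_div_assoc, div_le_iff₀ hs]
  have a1 := s3 x h0.le
  have a2 := c4 x h0.le
  have hf : 0 ≤ 1 - x ^ 2 / 3 := by linarith
  have b1 : (1 - x ^ 2 / 3) * (x - x ^ 3 / 6) ≤ (1 - x ^ 2 / 3) * sin x :=
    mul_le_mul_of_nonneg_left (by linarith) hf
  have b2 : x * cos x ≤ x * (1 - x ^ 2 / 2 + x ^ 4 / 24) :=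
    mul_le_mul_of_nonneg_left (by linarith) h0.le
  have b3 : 0 ≤ (1 - x ^ 2 / 3) * (x - x ^ 3 / 6) - x * (1 - x ^ 2 / 2 + x ^ 4 / 24) := by
    have e : (1 - x ^ 2 / 3) * (x - x ^ 3 / 6) - x * (1 - x ^ 2 / 2 + x ^ 4 / 24) =
      x ^ 5 * (1 / 72) := by ring
    rw [e]; positivity
  linarith

/-- An exceptional n gives an integer m with n^2 - 4 pi m - pi^2/3 in [0, 3/n^2]. -/
theorem exc_int {n : ℕ} (hn : 3 ≤ n) (h : Exc n) :
    ∃ m : ℤ, 0 ≤ (n : ℝ) ^ 2 - 4 * π * m - π ^ 2 / 3 ∧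
      ((n : ℝ) ^ 2 - 4 * π * m - π ^ 2 / 3) * (n : ℝ) ^ 2 ≤ 3 := by
  have hn' : (3 : ℝ) ≤ n := by exact_mod_cast hn
  have hpi := Real.pi_pos
  have hpi3 := Real.pi_gt_three
  have hpi4 := Real.pi_lt_d2
  have hpi5 := Real.pi_lt_d4
  have hn0 : (0 : ℝ) < n := by linarith
  set x : ℝ := π / n with hx
  have hx0 : 0 < x := by positivity
  have hxn : x * n = π := by rw [hx]; field_simp
  have hx1 : x ^ 2 ≤ 11 / 10 := by
    have : x ≤ π / 3 := by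
      rw [hx]; exact div_le_div_of_nonneg_left hpi.le (by norm_num) hn'
    have : x ≤ 1.048 := by linarith
    nlinarith
  have h1 := xcot_ge hx0 hx1
  have h2 := xcot_le hx0 hx1
  set A : ℝ := (n : ℝ) / 4 * Real.cot x with hA
  set B : ℝ := (n : ℝ) ^ 2 / (4 * π) - π / 12 with hB
  -- relation: 4 pi A = n^2 (x cot x)
  have eA : 4 * π * A = (n : ℝ) ^ 2 * (x * Real.cot x) := by
    rw [hA, ← hxn]; ring
  have eB : 4 * π * B = (n : ℝ) ^ 2 - π ^ 2 / 3 := by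
    rw [hB]; field_simp; ring
  have eN : (n : ℝ) ^ 2 * x ^ 2 = π ^ 2 := by rw [← hxn]; ring
  have hAB : A ≤ B := by
    have : 4 * π * A ≤ 4 * π * B := by
      rw [eA, eB]
      have := mul_le_mul_of_nonneg_left h2 (sq_nonneg (n : ℝ))
      nlinarith
    exact le_of_mul_le_mul_left this (by positivity)
  have hgap : 4 * π * (B - A) * (n : ℝ) ^ 2 ≤ 3 := by
    have t1 : 4 * π * (B - A) ≤ (n : ℝ) ^ 2 * (3 / 100 * x ^ 4) := by
      have := mul_le_mul_of_nonneg_left h1 (sq_nonneg (n : ℝ))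
      have e : 4 * π * (B - A) = 4 * π * B - 4 * π * A := by ring
      rw [e, eA, eB]
      nlinarith
    have t2 : (n : ℝ) ^ 2 * (3 / 100 * x ^ 4) * (n : ℝ) ^ 2 = 3 / 100 * π ^ 4 := by
      rw [← hxn]; ring
    have t3 : 4 * π * (B - A) * (n : ℝ) ^ 2 ≤ 3 / 100 * π ^ 4 := by
      rw [← t2]
      exact mul_le_mul_of_nonneg_right t1 (sq_nonneg _)
    have t4 : π ^ 4 ≤ 100 := by
      have h5 : π ^ 2 ≤ 9.93 := by nlinarith
      have h6 : (π ^ 2) ^ 2 ≤ 9.93 ^ 2 := by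
        apply pow_le_pow_left₀ (by positivity) h5
      have : π ^ 4 = (π ^ 2) ^ 2 := by ring
      rw [this]
      norm_num at h6 ⊢
      linarith
    linarith
  have h' : ⌊A⌋ ≠ ⌊B⌋ := h
  have hle : ⌊A⌋ ≤ ⌊B⌋ := Int.floor_mono hAB
  have hlt : ⌊A⌋ + 1 ≤ ⌊B⌋ := by omega
  refine ⟨⌊B⌋, ?_, ?_⟩
  · have : (⌊B⌋ : ℝ) ≤ B := Int.floor_le B
    have t : 4 * π * (⌊B⌋ : ℝ) ≤ 4 * π * B := mul_le_mul_of_nonneg_left this (by positivity)
    rw [eB] at t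
    linarith
  · have h3 : A < (⌊B⌋ : ℝ) := by
      have : A < ⌊A⌋ + 1 := Int.lt_floor_add_one A
      have h4 : ((⌊A⌋ + 1 : ℤ) : ℝ) ≤ (⌊B⌋ : ℝ) := by exact_mod_cast hlt
      push_cast at h4
      linarith
    have t : (n : ℝ) ^ 2 - 4 * π * (⌊B⌋ : ℝ) - π ^ 2 / 3 ≤ 4 * π * (B - A) := by
      have e : (n : ℝ) ^ 2 - 4 * π * (⌊B⌋ : ℝ) - π ^ 2 / 3 = 4 * π * (B - ⌊B⌋) := by
        rw [mul_sub, eB]; ring
      rw [e]
      exact mul_le_mul_of_nonneg_left (by linarith) (by positivity)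
    exact (mul_le_mul_of_nonneg_right t (sq_nonneg _)).trans hgap

end Pool.Agent.H39FB
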