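import Pool.Agent.H39FB.Window
import Pool.Agent.H39FB.Prop

namespace Pool.Agent.H39FB

open Real

/-- arithmetic step: two exceptional integers with the same gcd. -/
lemma arith {a n n' p q : ℕ} {ma : ℤ} (han : a ≤ n) (hnn : n < n') (hp : 0 < p)
    (hpn : p ∣ (n - a) * (n + a)) (hpn' : p ∣ (n' - a) * (n' + a))
    (hg : Nat.gcd (n - a) p = Nat.gcd (n' - a) p)
    (hR : 48 * (q : ℤ) * (q * (a : ℤ) ^ 2 - p * ma) - (p : ℤ) ^ 2 ≠ 0) :
    (p : ℤ) ^ 2 ≤ 4 * |48 * (q : ℤ) * (q * (a : ℤ) ^ 2 - p * ma) - (p : ℤ) ^ 2| *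
      ((n' - n : ℕ) : ℤ) ^ 2 := by
  set g := Nat.gcd (n - a) p with hgd
  have hg0 : 0 < g := Nat.gcd_pos_of_pos_right _ hp
  obtain ⟨c, hc⟩ : g ∣ p := Nat.gcd_dvd_right _ _
  have hc0 : 0 < c := by
    rcases Nat.eq_zero_or_pos c with h | h
    · rw [h] at hc; omega
    · exact h
  have aux : ∀ k : ℕ, Nat.gcd (k - a) p = g → p ∣ (k - a) * (k + a) → c ∣ k + a := by
    intro k hk hd
    obtain ⟨l, hl⟩ : g ∣ k - a := by rw [← hk]; exact Nat.gcd_dvd_left _ _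
    have hcop : Nat.Coprime l c := by
      have h1 : Nat.gcd (g * l) (g * c) = g := by rw [← hl, ← hc]; exact hk
      rw [Nat.gcd_mul_left] at h1
      exact Nat.eq_of_mul_eq_mul_left hg0 (by rw [h1, mul_one])
    rw [hl, hc, mul_assoc] at hd
    have hd2 : c ∣ l * (k + a) := Nat.dvd_of_mul_dvd_mul_left hg0 hd
    exact hcop.symm.dvd_of_dvd_mul_left hd2
  have c1 : c ∣ n + a := aux n rfl hpn
  have c2 : c ∣ n' + a := aux n' hg.symm hpn'
  have cd : c ∣ n' - n := by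
    have := Nat.dvd_sub c2 c1
    have e : n' + a - (n + a) = n' - n := by omega
    rwa [e] at this
  have g1 : g ∣ n - a := Nat.gcd_dvd_left _ _
  have g2 : g ∣ n' - a := by rw [hg]; exact Nat.gcd_dvd_left _ _
  have gd : g ∣ n' - n := by
    have := Nat.dvd_sub g2 g1
    have e : n' - a - (n - a) = n' - n := by omega
    rwa [e] at this
  set e := Nat.gcd g c with he
  have he0 : 0 < e := Nat.gcd_pos_of_pos_left _ hg0
  have hle : p ≤ e * (n' - n) := by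
    have h1 : Nat.lcm g c ∣ n' - n := Nat.lcm_dvd gd cd
    have h2 : Nat.lcm g c ≤ n' - n := Nat.le_of_dvd (by omega) h1
    have h3 : e * Nat.lcm g c = p := by rw [he, Nat.gcd_mul_lcm, hc]
    calc p = e * Nat.lcm g c := h3.symm
      _ ≤ e * (n' - n) := Nat.mul_le_mul_left _ h2
  have eg : e ∣ g := Nat.gcd_dvd_left _ _
  have ec : e ∣ c := Nat.gcd_dvd_right _ _
  have e2p : e ^ 2 ∣ p := by
    rw [hc, sq]; exact mul_dvd_mul eg ec
  have e2a : e ∣ 2 * a := by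
    have h1 : e ∣ n - a := eg.trans g1
    have h2 : e ∣ n + a := ec.trans c1
    have := Nat.dvd_sub h2 h1
    have h3 : n + a - (n - a) = 2 * a := by omega
    rwa [h3] at this
  have e2a' : (e : ℤ) ^ 2 ∣ (2 * (a : ℤ)) ^ 2 := by
    apply pow_dvd_pow_of_dvd
    exact_mod_cast Int.natCast_dvd_natCast.2 e2a
  have e2p' : (e : ℤ) ^ 2 ∣ (p : ℤ) := by exact_mod_cast Int.natCast_dvd_natCast.2 e2p
  set R : ℤ := 48 * (q : ℤ) * (q * (a : ℤ) ^ 2 - p * ma) - (p : ℤ) ^ 2 with hRd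
  have eR : (e : ℤ) ^ 2 ∣ 4 * R := by
    have h1 : 4 * R = (48 * q ^ 2) * (2 * (a : ℤ)) ^ 2 - (p : ℤ) * (4 * 48 * q * ma + 4 * p) := by
      rw [hRd]; ring
    rw [h1]
    exact dvd_sub (e2a'.mul_left _) (e2p'.mul_right _)
  have hle2 : (e : ℤ) ^ 2 ≤ 4 * |R| := by
    have h1 : (e : ℤ) ^ 2 ∣ 4 * |R| := by
      have := (dvd_abs ((e : ℤ) ^ 2) (4 * R)).2 eR
      rwa [abs_mul, abs_of_pos (by norm_num : (0 : ℤ) < 4)] at this
    apply Int.le_of_dvd _ h1
    have := abs_pos.2 hR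
    omega
  have hle' : (p : ℤ) ≤ e * ((n' - n : ℕ) : ℤ) := by exact_mod_cast hle
  calc (p : ℤ) ^ 2 ≤ (e * ((n' - n : ℕ) : ℤ)) ^ 2 := pow_le_pow_left₀ (by positivity) hle' 2
    _ = (e : ℤ) ^ 2 * ((n' - n : ℕ) : ℤ) ^ 2 := by ring
    _ ≤ 4 * |R| * ((n' - n : ℕ) : ℤ) ^ 2 := mul_le_mul_of_nonneg_right hle2 (sq_nonneg _)

/-- In a window [N, 9N/8] the number of exceptional integers is at most the number of divisors of
some p with p ≤ N^2. -/
theorem window (S : Finset ℕ) (N : ℕ) (hN : 1 ≤ N) (hS : ∀ n ∈ S, N ≤ n ∧ 8 * (n - N) ≤ N)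
    (hE : ∀ n ∈ S, ∃ m : ℤ, 0 ≤ (n : ℝ) ^ 2 - 4 * π * m - π ^ 2 / 3 ∧
      ((n : ℝ) ^ 2 - 4 * π * m - π ^ 2 / 3) * (n : ℝ) ^ 2 ≤ 3) :
    ∃ p : ℕ, 1 ≤ p ∧ p ≤ N ^ 2 ∧ S.card ≤ p.divisors.card := by
  classical
  by_cases hc : S.card ≤ 1
  · exact ⟨1, le_rfl, Nat.one_le_pow _ _ hN, by simpa using hc⟩
  push Not at hc
  have hne : S.Nonempty := Finset.card_pos.1 (by omega)
  set a := S.min' hne with ha
  set b := S.max' hne with hb
  have hab : a < b := Finset.min'_lt_max'_of_card S hc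
  have haS : a ∈ S := Finset.min'_mem _ _
  have hbS : b ∈ S := Finset.max'_mem _ _
  have hall : ∀ n ∈ S, a ≤ n ∧ n ≤ b := fun n hn => ⟨Finset.min'_le _ _ hn, Finset.le_max' _ _ hn⟩
  have h8 : 8 * (b - a) ≤ a := by
    have h1 := hS a haS
    have h2 := hS b hbS
    omega
  have ha8 : 8 ≤ a := by omega
  choose! m hm using hE
  have hma := hm a haS
  have hmb := hm b hbS
  -- positivity of v
  have hvpos : 0 < m b - m a := by
    have hpi := Real.pi_pos
    have x8 : (8 : ℝ) ≤ a := by exact_mod_cast ha8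
    have hxy : (a : ℝ) + 1 ≤ b := by exact_mod_cast hab
    have d2 : (b : ℝ) ^ 2 - 4 * π * m b - π ^ 2 / 3 ≤ 3 := by
      by_contra hcon
      push Not at hcon
      nlinarith [hmb.2]
    have h1 : 0 < 4 * π * ((m b : ℝ) - m a) := by nlinarith [hma.1]
    have h2 : 0 < (m b : ℝ) - m a := by
      by_contra hcon
      push Not at hcon
      have h4 : 4 * π * ((m b : ℝ) - m a) ≤ 0 :=
        mul_nonpos_of_nonneg_of_nonpos (by positivity) hcon
      linarith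
    have h3 : (0 : ℝ) < ((m b - m a : ℤ) : ℝ) := by push_cast; exact h2
    exact_mod_cast h3
  obtain ⟨v, hv⟩ : ∃ v : ℕ, m b - m a = v := ⟨(m b - m a).toNat, by omega⟩
  have hv0 : 0 < v := by omega
  set u : ℕ := b ^ 2 - a ^ 2 with hu
  have hsq : a ^ 2 < b ^ 2 := Nat.pow_lt_pow_left hab (by norm_num)
  have hu0 : 0 < u := by omega
  obtain ⟨p, q, hpq, hup, hvq⟩ := Nat.exists_coprime u v
  set t := Nat.gcd u v with ht
  have ht0 : 0 < t := Nat.gcd_pos_of_pos_left _ hu0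
  have hq0 : 0 < q := by
    rcases Nat.eq_zero_or_pos q with h | h
    · rw [h] at hvq; omega
    · exact h
  have hp0 : 0 < p := by
    rcases Nat.eq_zero_or_pos p with h | h
    · rw [h] at hup; omega
    · exact h
  have huZ : (b : ℤ) ^ 2 - (a : ℤ) ^ 2 = t * p := by
    have : (u : ℤ) = (b : ℤ) ^ 2 - (a : ℤ) ^ 2 := by
      rw [hu]; push_cast [Nat.cast_sub hsq.le]; ring
    rw [← this, hup]; push_cast; ring
  have hvZ : m b - m a = t * q := by
    rw [hv, hvq]; push_cast; ring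
  obtain ⟨hp12, hq1, hRb⟩ := core hab h8 huZ hvZ ht0 hq0 hma.1 hma.2 hmb.1 hmb.2
  set R : ℤ := 48 * (q : ℤ) * (q * (a : ℤ) ^ 2 - p * m a) - (p : ℤ) ^ 2 with hR
  have hR0 : R ≠ 0 := by
    intro h0
    have h1 : (q : ℤ) ∣ (p : ℤ) ^ 2 := by
      refine ⟨48 * (q * (a : ℤ) ^ 2 - p * m a), ?_⟩
      linarith
    have h2 : q ∣ p ^ 2 := by exact_mod_cast h1
    have h3 : Nat.Coprime q (p ^ 2) := (Nat.Coprime.pow_left 2 hpq).symm
    exact hq1 (Nat.Coprime.eq_one_of_dvd h3 h2)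
  -- p divides (n-a)(n+a)
  have hpd : ∀ n ∈ S, p ∣ (n - a) * (n + a) := by
    intro n hn
    obtain ⟨h1, h2⟩ := hall n hn
    have hmn := hm n hn
    have h3 := prop_core h1 h2 h8 ha8 hma.1 hma.2 hmb.1 hmb.2 hmn.1 hmn.2
    rw [huZ, hvZ] at h3
    have ht' : (t : ℤ) ≠ 0 := by exact_mod_cast ht0.ne'
    have h4 : ((n : ℤ) ^ 2 - (a : ℤ) ^ 2) * q = p * (m n - m a) := by
      apply mul_left_cancel₀ ht'
      linarith
    have h5 : (p : ℤ) ∣ ((n : ℤ) ^ 2 - (a : ℤ) ^ 2) * q := ⟨_, h4⟩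
    have h6 : (p : ℤ) ∣ ((n : ℤ) ^ 2 - (a : ℤ) ^ 2) := by
      apply IsCoprime.dvd_of_dvd_mul_right _ h5
      exact Nat.isCoprime_iff_coprime.2 hpq
    have h7 : (((n - a) * (n + a) : ℕ) : ℤ) = (n : ℤ) ^ 2 - (a : ℤ) ^ 2 := by
      push_cast [Nat.cast_sub h1]; ring
    rw [← h7] at h6
    exact_mod_cast h6
  refine ⟨p, hp0, ?_, ?_⟩
  · have h1 : p ≤ u := Nat.le_of_dvd hu0 ⟨t, hup⟩
    have h2 := hS a haS
    have h3 := hS b hbS
    have h4 : b ^ 2 ≤ 2 * N ^ 2 := by nlinarith [h3.1, h3.2, (by omega : 8 * b ≤ 9 * N)]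
    have h5 : N ^ 2 ≤ a ^ 2 := Nat.pow_le_pow_left h2.1 2
    omega
  · apply Finset.card_le_card_of_injOn (fun n => Nat.gcd (n - a) p)
    · intro n hn
      simp only [Finset.mem_coe, Nat.mem_divisors]
      exact ⟨Nat.gcd_dvd_right _ _, hp0.ne'⟩
    · -- injectivity
      have main : ∀ n ∈ S, ∀ n' ∈ S, n < n' → Nat.gcd (n - a) p = Nat.gcd (n' - a) p → False := by
        intro n hn n' hn' hlt hg
        have h1 := arith (q := q) (ma := m a) (hall n hn).1 hlt hp0 (hpd n hn) (hpd n' hn') hg hR0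
        have h2 : ((n' - n : ℕ) : ℤ) ≤ (b : ℤ) - a := by
          have := (hall n' hn').2
          have := (hall n hn).1
          omega
        have h3 : (p : ℤ) ^ 2 ≤ 4 * |R| * ((b : ℤ) - a) ^ 2 := by
          refine h1.trans ?_
          apply mul_le_mul_of_nonneg_left _ (by positivity)
          exact pow_le_pow_left₀ (by positivity) h2 2
        have h3' : (p : ℝ) ^ 2 ≤ 4 * |(R : ℝ)| * ((b : ℝ) - a) ^ 2 := by
          have : ((p : ℤ) ^ 2 : ℝ) ≤ ((4 * |R| * ((b : ℤ) - a) ^ 2 : ℤ) : ℝ) := by exact_mod_cast h3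
          push_cast at this
          exact this
        have hp12' : 12 * (q : ℝ) ≤ p := by exact_mod_cast hp12
        have hq0' : (1 : ℝ) ≤ q := by exact_mod_cast hq0
        have x8 : (8 : ℝ) ≤ a := by exact_mod_cast ha8
        have hxy : (a : ℝ) + 1 ≤ b := by exact_mod_cast hab
        have h8' : 8 * ((b : ℝ) - a) ≤ a := by
          have : 8 * b ≤ a + 8 * a := by omega
          have : 8 * (b : ℝ) ≤ a + 8 * a := by exact_mod_cast this
          linarith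
        have hH0 : 0 ≤ (b : ℝ) - a := by linarith
        have h4 : (p : ℝ) ^ 2 * a ≤ 400 * (q : ℝ) ^ 2 * ((b : ℝ) - a) := by
          have h5 : (p : ℝ) ^ 2 * a ≤ 4 * |(R : ℝ)| * ((b : ℝ) - a) ^ 2 * a :=
            mul_le_mul_of_nonneg_right h3' (by linarith)
          have h6 : 4 * |(R : ℝ)| * ((b : ℝ) - a) ^ 2 * a =
              4 * (|(R : ℝ)| * (a * ((b : ℝ) - a))) * ((b : ℝ) - a) := by ring
          rw [h6] at h5
          have h7 : 4 * (|(R : ℝ)| * (a * ((b : ℝ) - a))) * ((b : ℝ) - a) ≤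
              4 * (100 * (q : ℝ) ^ 2) * ((b : ℝ) - a) := by
            apply mul_le_mul_of_nonneg_right _ hH0
            apply mul_le_mul_of_nonneg_left hRb (by norm_num)
          linarith
        have h8 : 144 * (q : ℝ) ^ 2 * a ≤ (p : ℝ) ^ 2 * a := by
          apply mul_le_mul_of_nonneg_right _ (by linarith)
          nlinarith
        have h9 : 400 * (q : ℝ) ^ 2 * ((b : ℝ) - a) ≤ 50 * (q : ℝ) ^ 2 * a := by
          have : 0 ≤ (q : ℝ) ^ 2 := sq_nonneg _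
          nlinarith
        have h10 : 0 < (q : ℝ) ^ 2 * a := by positivity
        nlinarith
      intro n hn n' hn' hg
      rcases lt_trichotomy n n' with h | h | h
      · exact (main n hn n' hn' h hg).elim
      · exact h
      · exact (main n' hn' n hn h hg.symm).elim

end Pool.Agent.H39FB
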