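import Pool.Agent.H39FB.Trig

namespace Pool.Agent.H39FB

open Real

/-- the arithmetic core: from two exceptional integers a < b close together, with v = m_b - m_a and
b^2 - a^2 = t p, v = t q, the integer R = 48 q s - p^2, s = q a^2 - p m_a, is small. -/
lemma core {a b p q t : ℕ} {ma mb : ℤ} (hab : a < b) (h8 : 8 * (b - a) ≤ a)
    (hu : (b : ℤ) ^ 2 - (a : ℤ) ^ 2 = t * p) (hv : mb - ma = t * q) (ht : 0 < t) (hq : 0 < q)
    (da0 : 0 ≤ (a : ℝ) ^ 2 - 4 * π * ma - π ^ 2 / 3)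
    (da1 : ((a : ℝ) ^ 2 - 4 * π * ma - π ^ 2 / 3) * (a : ℝ) ^ 2 ≤ 3)
    (db0 : 0 ≤ (b : ℝ) ^ 2 - 4 * π * mb - π ^ 2 / 3)
    (db1 : ((b : ℝ) ^ 2 - 4 * π * mb - π ^ 2 / 3) * (b : ℝ) ^ 2 ≤ 3) :
    12 * q ≤ p ∧ (q = 1 → False) ∧
    |(((48 * q * (q * (a : ℤ) ^ 2 - p * ma) - (p : ℤ) ^ 2 : ℤ)) : ℝ)| * (a * ((b : ℝ) - a)) ≤
      100 * (q : ℝ) ^ 2 := by
  have hpi := Real.pi_pos
  have hpi3 := Real.pi_gt_d2
  have hpi4 := Real.pi_lt_d4
  have ha8 : 8 ≤ a := by omega
  have x8 : (8 : ℝ) ≤ a := by exact_mod_cast ha8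
  have hxy : (a : ℝ) + 1 ≤ b := by exact_mod_cast hab
  have h8' : 8 * ((b : ℝ) - a) ≤ a := by
    have : 8 * b ≤ a + 8 * a := by omega
    have : 8 * (b : ℝ) ≤ a + 8 * a := by exact_mod_cast this
    linarith
  have hq1 : (1 : ℝ) ≤ q := by exact_mod_cast hq
  have ht1 : (1 : ℝ) ≤ t := by exact_mod_cast ht
  set x : ℝ := (a : ℝ) with hx
  set y : ℝ := (b : ℝ) with hy
  set d : ℝ := x ^ 2 - 4 * π * ma - π ^ 2 / 3 with hd
  set d' : ℝ := y ^ 2 - 4 * π * mb - π ^ 2 / 3 with hd'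
  set H : ℝ := y - x with hH
  have hH1 : 1 ≤ H := by linarith
  have hx2 : 0 < x ^ 2 := by positivity
  have d1 : d ≤ 3 / x ^ 2 := by rw [le_div_iff₀ hx2]; exact da1
  have d1' : d' ≤ 3 / x ^ 2 := by
    rw [le_div_iff₀ hx2]
    have : d' * x ^ 2 ≤ d' * y ^ 2 := mul_le_mul_of_nonneg_left (by nlinarith) db0
    linarith
  have hu' : y ^ 2 - x ^ 2 = t * p := by
    have h := congrArg (Int.cast : ℤ → ℝ) hu
    push_cast at h
    exact h
  have hv' : (mb : ℝ) - ma = t * q := by exact_mod_cast hv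
  -- kappa
  set κ : ℝ := (p : ℝ) - 4 * π * q with hκ
  have htκ : t * κ = d' - d := by
    rw [hκ, mul_sub, ← hu']
    have : (t : ℝ) * (4 * π * q) = 4 * π * (mb - ma) := by rw [hv']; ring
    rw [this, hd, hd']; ring
  have e64 : 3 / x ^ 2 ≤ 3 / 64 := by
    apply div_le_div_of_nonneg_left (by norm_num) (by norm_num)
    nlinarith
  have hκ1 : t * |κ| ≤ 3 / x ^ 2 := by
    have : t * |κ| = |t * κ| := by rw [abs_mul, abs_of_pos (by linarith : (0 : ℝ) < t)]
    rw [this, htκ, abs_le]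
    constructor <;> linarith
  have hκ0 : |κ| ≤ 3 / 64 := by
    have : |κ| ≤ t * |κ| := by
      have := abs_nonneg κ
      nlinarith
    linarith
  have hκa := abs_le.1 hκ0
  -- size of t q
  have hu2 : 2 * (x * H) ≤ y ^ 2 - x ^ 2 := by nlinarith
  have hxH : 8 ≤ x * H := by nlinarith
  have htq : (158 / 1000) * (x * H) ≤ t * q := by
    have h1 : 4 * π * (t * q) = (y ^ 2 - x ^ 2) - t * κ := by rw [hu', hκ]; ring
    have h2 : t * κ ≤ 3 / 64 := by
      have : t * κ ≤ t * |κ| := mul_le_mul_of_nonneg_left (le_abs_self κ) (by linarith)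
      linarith
    have h3 : 199 / 100 * (x * H) ≤ 4 * π * (t * q) := by rw [h1]; nlinarith
    have h4 : 4 * π * (t * q) ≤ 12.5664 * (t * q) := by
      have : 0 ≤ (t : ℝ) * q := by positivity
      nlinarith
    nlinarith
  -- |kappa| x^3 H <= 19 q
  have hκ2 : |κ| * (x ^ 2 * (x * H)) ≤ 19 * q := by
    have h1 : t * |κ| * x ^ 2 ≤ 3 := by
      rw [← le_div_iff₀ hx2]; exact hκ1
    have h2 : |κ| * x ^ 2 * ((158 / 1000) * (x * H)) ≤ |κ| * x ^ 2 * (t * q) :=
      mul_le_mul_of_nonneg_left htq (by positivity)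
    have h3 : |κ| * x ^ 2 * (t * q) = (t * |κ| * x ^ 2) * q := by ring
    have h4 : (t * |κ| * x ^ 2) * q ≤ 3 * q := mul_le_mul_of_nonneg_right h1 (by linarith)
    nlinarith
  have hp12 : 12 * (q : ℝ) ≤ p := by
    have : (p : ℝ) = 4 * π * q + κ := by rw [hκ]; ring
    rw [this]
    nlinarith
  refine ⟨by exact_mod_cast hp12, ?_, ?_⟩
  · intro h1
    have e : (p : ℝ) = 4 * π + κ := by rw [hκ, h1]; push_cast; ring
    have h2 : (p : ℝ) < 13 := by rw [e]; linarith
    have h3 : (12 : ℝ) < p := by rw [e]; linarith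
    have h2' : p < 13 := by exact_mod_cast h2
    have h3' : 12 < p := by exact_mod_cast h3
    omega
  · -- identity for R
    have eR : (((48 * q * (q * (a : ℤ) ^ 2 - p * ma) - (p : ℤ) ^ 2 : ℤ)) : ℝ) =
        48 * q ^ 2 * d - 48 * q * κ * ma - 8 * π * q * κ - κ ^ 2 := by
      push_cast
      have ep : (p : ℝ) = 4 * π * q + κ := by rw [hκ]; ring
      have em : (a : ℝ) ^ 2 = d + 4 * π * ma + π ^ 2 / 3 := by rw [hd]; ring
      rw [em, ep]; ring
    rw [eR]
    have m0 : 0 ≤ (ma : ℝ) := by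
      have : 0 < 4 * π * (ma : ℝ) := by
        have e : 4 * π * (ma : ℝ) = x ^ 2 - π ^ 2 / 3 - d := by rw [hd]; ring
        rw [e]; nlinarith
      by_contra hcon
      push Not at hcon
      have h4 : 4 * π * (ma : ℝ) ≤ 0 := mul_nonpos_of_nonneg_of_nonpos (by positivity) hcon.le
      linarith
    have m1 : 12 * (ma : ℝ) ≤ x ^ 2 := by
      have e : 4 * π * (ma : ℝ) = x ^ 2 - π ^ 2 / 3 - d := by rw [hd]; ring
      nlinarith
    have hxH0 : 0 ≤ x * H := by linarith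
    have b0 : |48 * q ^ 2 * d - 48 * q * κ * ma - 8 * π * q * κ - κ ^ 2| ≤
        48 * q ^ 2 * d + 48 * q * |κ| * ma + 8 * π * q * |κ| + |κ| ^ 2 := by
      have q0 : (0 : ℝ) ≤ q := by linarith
      have k1 := abs_nonneg κ
      have A1 : -(48 * (q : ℝ) * |κ| * ma) ≤ 48 * q * κ * ma ∧ 48 * q * κ * ma ≤ 48 * q * |κ| * ma := by
        constructor
        · have := neg_abs_le κ
          have h := mul_le_mul_of_nonneg_left this (by positivity : (0 : ℝ) ≤ 48 * q * ma)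
          nlinarith
        · have := le_abs_self κ
          have h := mul_le_mul_of_nonneg_left this (by positivity : (0 : ℝ) ≤ 48 * q * ma)
          nlinarith
      have A2 : -(8 * π * (q : ℝ) * |κ|) ≤ 8 * π * q * κ ∧ 8 * π * q * κ ≤ 8 * π * q * |κ| := by
        constructor
        · have := neg_abs_le κ
          have h := mul_le_mul_of_nonneg_left this (by positivity : (0 : ℝ) ≤ 8 * π * q)
          nlinarith
        · have := le_abs_self κ
          exact mul_le_mul_of_nonneg_left this (by positivity : (0 : ℝ) ≤ 8 * π * q)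
      have A3 : 0 ≤ 48 * (q : ℝ) ^ 2 * d := by positivity
      have A4 : |κ| ^ 2 = κ ^ 2 := sq_abs κ
      have A5 := sq_nonneg κ
      rw [abs_le]
      constructor <;> linarith [A1.1, A1.2, A2.1, A2.2]
    have c1 : 48 * (q : ℝ) ^ 2 * d * (x * H) ≤ 18 * q ^ 2 := by
      have h1 : d * (x * H) ≤ 3 / 8 := by
        have : d * (x * H) ≤ 3 / x ^ 2 * (x * (x / 8)) :=
          mul_le_mul d1 (by nlinarith) hxH0 (by positivity)
        have e : 3 / x ^ 2 * (x * (x / 8)) = 3 / 8 := by field_simp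
        linarith
      nlinarith [sq_nonneg (q : ℝ)]
    have c2' : |κ| * (x * H) * x ^ 2 ≤ 19 * q := by nlinarith
    have c2 : 48 * q * |κ| * ma * (x * H) ≤ 76 * q ^ 2 := by
      have h1 : 48 * q * |κ| * ma * (x * H) ≤ 48 * q * |κ| * (x ^ 2 / 12) * (x * H) := by
        apply mul_le_mul_of_nonneg_right _ hxH0
        apply mul_le_mul_of_nonneg_left _ (by positivity)
        linarith
      have h2 : 48 * q * |κ| * (x ^ 2 / 12) * (x * H) = 4 * q * (|κ| * (x * H) * x ^ 2) := by ring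
      rw [h2] at h1
      have h3 : 4 * q * (|κ| * (x * H) * x ^ 2) ≤ 4 * q * (19 * q) :=
        mul_le_mul_of_nonneg_left c2' (by positivity)
      nlinarith
    have c3' : |κ| * (x * H) ≤ 19 / 64 * q := by
      have : |κ| * (x * H) * 64 ≤ |κ| * (x * H) * x ^ 2 :=
        mul_le_mul_of_nonneg_left (by nlinarith) (by positivity)
      linarith
    have c3 : 8 * π * q * |κ| * (x * H) ≤ 8 * q ^ 2 := by
      have h1 : 8 * π * q * |κ| * (x * H) = 8 * π * q * (|κ| * (x * H)) := by ring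
      rw [h1]
      have h2 : 8 * π * q * (|κ| * (x * H)) ≤ 8 * π * q * (19 / 64 * q) :=
        mul_le_mul_of_nonneg_left c3' (by positivity)
      nlinarith [sq_nonneg (q : ℝ)]
    have c4 : |κ| ^ 2 * (x * H) ≤ q ^ 2 * (1 / 10) := by
      have h1 : |κ| ^ 2 * (x * H) = |κ| * (|κ| * (x * H)) := by ring
      rw [h1]
      have h2 : |κ| * (|κ| * (x * H)) ≤ 3 / 64 * (19 / 64 * q) :=
        mul_le_mul hκ0 c3' (by positivity) (by norm_num)
      nlinarith
    have fin : |48 * q ^ 2 * d - 48 * q * κ * ma - 8 * π * q * κ - κ ^ 2| * (x * H) ≤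
        (48 * q ^ 2 * d + 48 * q * |κ| * ma + 8 * π * q * |κ| + |κ| ^ 2) * (x * H) :=
      mul_le_mul_of_nonneg_right b0 hxH0
    nlinarith [sq_nonneg (q : ℝ)]

end Pool.Agent.H39FB
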